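import Mathlib
import Pool.Agent.KS6_98.Folk.Final

set_option autoImplicit false

namespace Pool.Agent.Results.MP_eb1b1c_co.SmallK4Free

/-- There is a graph on at most `10 ^ 15320` vertices which contains neither `K₄` nor the
complement `H₀` of `P₂ ∪ P₃`, and in which every 2-colouring of the edges has a monochromatic
triangle. -/
theorem result : ∃ n : ℕ, n ≤ 10 ^ 15320 ∧ ∃ G : SimpleGraph (Fin n),
    G.CliqueFree 4 ∧
    (¬ ∃ f : Fin 5 → Fin n, Function.Injective f ∧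
      ∀ i j : Fin 5, i ≠ j →
        ¬ ((i = 0 ∧ j = 1) ∨ (i = 1 ∧ j = 0) ∨ (i = 2 ∧ j = 3) ∨
           (i = 3 ∧ j = 2) ∨ (i = 3 ∧ j = 4) ∨ (i = 4 ∧ j = 3)) →
        G.Adj (f i) (f j)) ∧
    ∀ c : Fin n → Fin n → Bool, (∀ x y : Fin n, G.Adj x y → c x y = c y x) →
      ∃ x y z : Fin n, G.Adj x y ∧ G.Adj y z ∧ G.Adj x z ∧ c x y = c y z ∧ c y z = c x z := by
  obtain ⟨n, hn, G, h1, h2, h3⟩ := KS6_98.Folk.final
  refine ⟨n, hn, G, h1, ?_, h2⟩
  rintro ⟨f, hf, hf2⟩
  refine h3 f hf fun j => ?_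
  fin_cases j
  · exact hf2 0 2 (by decide) (by decide)
  · exact hf2 0 3 (by decide) (by decide)
  · exact hf2 0 4 (by decide) (by decide)
  · exact hf2 1 2 (by decide) (by decide)
  · exact hf2 1 3 (by decide) (by decide)
  · exact hf2 1 4 (by decide) (by decide)
  · exact hf2 2 4 (by decide) (by decide)

end Pool.Agent.Results.MP_eb1b1c_co.SmallK4Free
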